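import Pool.Agent.helper69.FQ.Quarter

set_option maxHeartbeats 4000000

namespace Pool.Agent.helper69.FQ

/-- A Fermat number has no proper divisor `2 ^ n + 1`. -/
theorem no_pow_add_one (m n : ℕ) (hd : 2 ^ n + 1 ∣ 2 ^ 2 ^ m + 1) : n = 2 ^ m := by
  obtain ⟨N, hN⟩ : ∃ N, N = 2 ^ m := ⟨_, rfl⟩
  rw [← hN] at hd
  rcases Nat.eq_zero_or_pos n with h0 | hn
  · subst h0
    have hN0 : N ≠ 0 := by rw [hN]; positivity
    have e1 : 2 ∣ 2 ^ N := dvd_pow_self 2 hN0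
    norm_num at hd
    omega
  have hNn : N = n * (N / n) + N % n := (Nat.div_add_mod N n).symm
  obtain ⟨q, hq⟩ : ∃ q, q = N / n := ⟨_, rfl⟩
  obtain ⟨r, hr⟩ : ∃ r, r = N % n := ⟨_, rfl⟩
  have hrn : r < n := by rw [hr]; exact Nat.mod_lt _ hn
  rw [← hq, ← hr] at hNn
  have hd' : ((2 : ℤ) ^ n + 1) ∣ (2 ^ N + 1) := by exact_mod_cast hd
  have h1 : ((2 : ℤ) ^ n + 1) ∣ ((2 ^ n) ^ q - (-1) ^ q) := by
    have : ((2 : ℤ) ^ n - (-1)) ∣ ((2 ^ n) ^ q - (-1) ^ q) := sub_dvd_pow_sub_pow _ _ q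
    simpa using this
  have h2 : ((2 : ℤ) ^ n + 1) ∣ ((-1) ^ q * 2 ^ r + 1) := by
    have e : ((-1 : ℤ) ^ q * 2 ^ r + 1) = (2 ^ N + 1) - ((2 ^ n) ^ q - (-1) ^ q) * 2 ^ r := by
      rw [hNn, pow_add, pow_mul]
      ring
    rw [e]
    exact dvd_sub hd' (Dvd.dvd.mul_right h1 _)
  have h2r : (2 : ℤ) ^ r < 2 ^ n := pow_lt_pow_right₀ (by norm_num) hrn
  have h2r1 : (1 : ℤ) ≤ 2 ^ r := one_le_pow₀ (by norm_num)
  rcases Nat.even_or_odd q with hqe | hqo
  · rw [hqe.neg_one_pow, one_mul] at h2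
    have := Int.le_of_dvd (by linarith) h2
    linarith
  · rw [hqo.neg_one_pow] at h2
    have h3 : ((-1 : ℤ) * 2 ^ r + 1) = 0 := by
      by_contra hne
      have h4 : ((2 : ℤ) ^ n + 1) ∣ (2 ^ r - 1) := by
        have := (dvd_neg).2 h2
        have e : -((-1 : ℤ) * 2 ^ r + 1) = 2 ^ r - 1 := by ring
        rwa [e] at this
      have := Int.le_of_dvd (by omega) h4
      linarith
    have h5 : (2 : ℕ) ^ r = 1 := by
      have : (2 : ℤ) ^ r = 1 := by linarith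
      exact_mod_cast this
    have hr0 : r = 0 := by
      by_contra h
      have : 2 ∣ 2 ^ r := dvd_pow_self 2 h
      omega
    rw [hr0, add_zero] at hNn
    have hqd : q ∣ 2 ^ m := by rw [← hN, hNn]; exact ⟨n, by ring⟩
    obtain ⟨i, _, hi⟩ := (Nat.dvd_prime_pow Nat.prime_two).1 hqd
    have hi0 : i = 0 := by
      by_contra h
      rw [hi] at hqo
      have : Even (2 ^ i) := (Nat.even_pow.2 ⟨even_two, h⟩)
      exact (Nat.not_even_iff_odd.2 hqo) this
    rw [hi0, pow_zero] at hi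
    rw [hi, mul_one] at hNn
    rw [← hN, hNn]

/-- A unit modulo an odd `F` whose order is divisible by `2 ^ t` comes from a prime factor
congruent to `1` modulo `2 ^ t`. -/
theorem exists_prime_of_order (F : ℕ) (hodd : Odd F) (hF1 : 1 < F) (t : ℕ) (a : (ZMod F)ˣ)
    (ha : 2 ^ t ∣ orderOf a) : ∃ p, p.Prime ∧ p ∣ F ∧ p ≡ 1 [MOD 2 ^ t] := by
  haveI : NeZero F := ⟨by omega⟩
  rcases Nat.eq_zero_or_pos t with h0 | ht
  · subst h0
    obtain ⟨p, hp, hpF⟩ := Nat.exists_prime_and_dvd (n := F) (by omega)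
    exact ⟨p, hp, hpF, by rw [pow_zero]; exact Nat.modEq_one⟩
  obtain ⟨n, rfl⟩ : ∃ n, t = n + 1 := ⟨t - 1, by omega⟩
  obtain ⟨c, hc⟩ := ha
  have hopos : 0 < orderOf a := orderOf_pos a
  have hc0 : c ≠ 0 := by
    rintro rfl
    rw [mul_zero] at hc
    omega
  obtain ⟨b, hb⟩ : ∃ b, b = a ^ c := ⟨_, rfl⟩
  have hob : orderOf b = 2 ^ (n + 1) := by
    rw [hb, orderOf_pow' a hc0, hc, Nat.gcd_mul_left_left,
      Nat.mul_div_cancel _ (Nat.pos_of_ne_zero hc0)]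
  have hb1 : b ^ 2 ^ (n + 1) = 1 := by rw [← hob]; exact pow_orderOf_eq_one b
  have hb2 : b ^ 2 ^ n ≠ 1 := by
    intro h
    have := orderOf_dvd_of_pow_eq_one h
    rw [hob] at this
    have := Nat.le_of_dvd (by positivity) this
    have h3 : 2 ^ n < 2 ^ (n + 1) := Nat.pow_lt_pow_right (by norm_num) (by omega)
    omega
  -- a prime where `b ^ 2 ^ n` is not `1`
  obtain ⟨d, hd⟩ : ∃ d : ZMod F, d = ((b ^ 2 ^ n : (ZMod F)ˣ) : ZMod F) := ⟨_, rfl⟩
  have hd2 : d ^ 2 = 1 := by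
    rw [hd, ← Units.val_pow_eq_pow_val, ← pow_mul, ← pow_succ, hb1, Units.val_one]
  have hd1 : d ≠ 1 := by
    intro h
    apply hb2
    apply Units.ext
    rw [← hd, h, Units.val_one]
  have hex : ∃ p, p.Prime ∧ p ∣ F ∧ ¬ (p : ℤ) ∣ ((d.val : ℤ) - 1) := by
    by_contra hcon
    push Not at hcon
    apply hd1
    have hdv : ((d.val : ℤ) : ZMod F) = d := by
      rw [Int.cast_natCast, ZMod.natCast_zmod_val]
    have h1 : (F : ℤ) ∣ ((d.val : ℤ) - 1) * ((d.val : ℤ) + 1) := by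
      rw [← ZMod.intCast_zmod_eq_zero_iff_dvd]
      push_cast
      rw [ZMod.natCast_zmod_val]
      linear_combination hd2
    have h2 : IsCoprime (F : ℤ) ((d.val : ℤ) + 1) := by
      have : Nat.Coprime F (d.val + 1) := by
        apply Nat.coprime_of_dvd
        intro p hp hpF hpd
        have h3 := hcon p hp hpF
        have h4 : (p : ℤ) ∣ 2 := by
          have h5 : (p : ℤ) ∣ ((d.val + 1 : ℕ) : ℤ) := by exact_mod_cast hpd
          have h6 := dvd_sub h5 h3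
          have e : (((d.val + 1 : ℕ) : ℤ) - ((d.val : ℤ) - 1)) = 2 := by push_cast; ring
          rwa [e] at h6
        have h7 : p ∣ 2 := by exact_mod_cast h4
        have h8 := (Nat.prime_dvd_prime_iff_eq hp Nat.prime_two).1 h7
        rw [h8] at hpF
        rw [Nat.odd_iff] at hodd
        omega
      have := Nat.isCoprime_iff_coprime.2 this
      exact_mod_cast this
    have h3 := h2.dvd_of_dvd_mul_right h1
    have h4 := (ZMod.intCast_zmod_eq_zero_iff_dvd _ F).2 h3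
    push_cast at h4
    rw [ZMod.natCast_zmod_val] at h4
    linear_combination h4
  obtain ⟨p, hp, hpF, hpd⟩ := hex
  refine ⟨p, hp, hpF, ?_⟩
  haveI : Fact p.Prime := ⟨hp⟩
  have h1 : (ZMod.castHom hpF (ZMod p)) (b : ZMod F) ^ 2 ^ (n + 1) = 1 := by
    rw [← map_pow, ← Units.val_pow_eq_pow_val, hb1, Units.val_one, map_one]
  have h2 : ¬ (ZMod.castHom hpF (ZMod p)) (b : ZMod F) ^ 2 ^ n = 1 := by
    intro h
    rw [← map_pow, ← Units.val_pow_eq_pow_val, ← hd] at h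
    apply hpd
    rw [← ZMod.intCast_zmod_eq_zero_iff_dvd]
    push_cast
    have : (ZMod.castHom hpF (ZMod p)) ((d.val : ℕ) : ZMod F) = ((d.val : ℕ) : ZMod p) :=
      map_natCast _ _
    rw [ZMod.natCast_zmod_val] at this
    rw [← this, h, sub_self]
  have h3 := orderOf_eq_prime_pow h2 h1
  have h4 : (ZMod.castHom hpF (ZMod p)) (b : ZMod F) ≠ 0 := by
    intro h0
    rw [h0, zero_pow (by positivity)] at h1
    exact zero_ne_one h1
  have h5 := ZMod.orderOf_dvd_card_sub_one h4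
  rw [h3] at h5
  exact ((Nat.modEq_iff_dvd' hp.one_lt.le).2 h5).symm

/-- If the order of one unit modulo the Fermat number `F` is divisible by `2 ^ t`,
`4 t ≥ 2 ^ m`, then `F` is prime. -/
theorem prime_of_order (m t : ℕ) (a : (ZMod (2 ^ 2 ^ m + 1))ˣ) (ht : 2 ^ m ≤ 4 * t)
    (ha : 2 ^ t ∣ orderOf a) : Nat.Prime (2 ^ 2 ^ m + 1) := by
  have hodd : Odd (2 ^ 2 ^ m + 1) := by
    have : Even (2 ^ 2 ^ m) := Nat.even_pow.2 ⟨even_two, by positivity⟩
    exact this.add_one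
  obtain ⟨p, hp, hpF, hp1⟩ := exists_prime_of_order _ hodd
    (by have := Nat.one_le_two_pow (n := 2 ^ m); omega) t a ha
  have := quarter m t p hpF hp.one_lt ht hp1
  rw [← this]
  exact hp

end Pool.Agent.helper69.FQ
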