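import Pool.Agent.helper69.FQ.Order

set_option maxHeartbeats 4000000

namespace Pool.Agent.helper69.FQ

/-- **Quarter gap** for `2 ^ (2 * M) + 1`, `M` not divisible by `3`, `M = 1` or even. -/
theorem quarter_gen (M t D : ℕ) (h3 : ¬ 3 ∣ M) (hMe : M = 1 ∨ Even M)
    (hD : D ∣ 2 ^ (2 * M) + 1) (hD1 : 1 < D) (ht : M ≤ 2 * t)
    (hmod : D ≡ 1 [MOD 2 ^ t]) : D = 2 ^ (2 * M) + 1 := by
  by_contra hne
  obtain ⟨E, hE⟩ := hD
  have hDE : D * E = 2 ^ (2 * M) + 1 := hE.symm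
  have hE1 : E ≠ 1 := by
    rintro rfl
    rw [mul_one] at hDE
    exact hne hDE
  have hE0 : E ≠ 0 := by
    rintro rfl
    simp at hDE
  -- exact valuation
  have hD2 : D - 1 ≠ 0 := by omega
  obtain ⟨u, k, hk, hku⟩ := Nat.exists_eq_two_pow_mul_odd hD2
  have hDk : D = 1 + k * 2 ^ u := by
    rw [mul_comm k, ← hku]
    omega
  have hval : ∀ a : ℕ, 2 ^ a ∣ D - 1 → a ≤ u := by
    intro a ha
    rw [hku] at ha
    by_contra hlt
    push Not at hlt
    have h2 : 2 ^ (u + 1) ∣ 2 ^ u * k := dvd_trans (pow_dvd_pow 2 hlt) ha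
    rw [pow_succ] at h2
    have h3 := Nat.dvd_of_mul_dvd_mul_left (by positivity) h2
    rw [Nat.odd_iff] at hk
    omega
  have htu : t ≤ u := by
    apply hval
    exact (Nat.modEq_iff_dvd' (by omega)).1 hmod.symm
  -- `u < 2 M`
  have hEge : 2 ≤ E := by omega
  have huN : u ≤ 2 * M := by
    by_contra hgt
    push Not at hgt
    have e1 : 2 ^ (2 * M) ≤ 2 ^ u := Nat.pow_le_pow_right (by norm_num) hgt.le
    have e2 : 2 ^ u ≤ k * 2 ^ u := Nat.le_mul_of_pos_left _ hk.pos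
    have e3 : D * 2 ≤ D * E := Nat.mul_le_mul_left D hEge
    omega
  have hEmod : 2 ^ u ∣ E - 1 := by
    have e1 : D * E = E + 2 ^ u * (k * E) := by rw [hDk]; ring
    have e2 : 2 ^ u ∣ 2 ^ (2 * M) := pow_dvd_pow 2 huN
    obtain ⟨c, hc⟩ := e2
    have e3 : E - 1 + 2 ^ u * (k * E) = 2 ^ u * c := by
      rw [← hc]
      omega
    have e4 : 2 ^ u ∣ E - 1 + 2 ^ u * (k * E) := ⟨c, e3⟩
    exact (Nat.dvd_add_left ⟨k * E, rfl⟩).1 e4
  obtain ⟨l, hl⟩ := hEmod
  have hEl : E = 1 + l * 2 ^ u := by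
    rw [mul_comm l, ← hl]
    omega
  have hFkl : (1 + k * 2 ^ u) * (1 + l * 2 ^ u) = 2 ^ (2 * M) + 1 := by
    rw [← hDk, ← hEl, hDE]
  have hlodd : Odd l := by
    by_contra hev
    rw [Nat.not_odd_iff_even] at hev
    obtain ⟨l', hl'⟩ := hev
    have hl1 : 1 ≤ l' := by
      by_contra h0
      have : l' = 0 := by omega
      rw [hl', this] at hEl
      simp at hEl
      omega
    have huN' : u + 1 ≤ 2 * M := by
      by_contra hgt
      have hu2 : u = 2 * M := by omega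
      have e1 : 2 ^ u + 1 ≤ D := by
        rw [hDk]
        have := Nat.le_mul_of_pos_left (2 ^ u) hk.pos
        omega
      have e3 : D * 2 ≤ D * E := Nat.mul_le_mul_left D hEge
      rw [hDE, ← hu2] at e3
      omega
    have e1 : 2 ^ u * (k + 2 * (l' + k * l' * 2 ^ u)) = 2 ^ u * 2 ^ (2 * M - u) := by
      have e2 : 2 ^ u * 2 ^ (2 * M - u) = 2 ^ (2 * M) := by
        rw [← pow_add]; congr 1; omega
      rw [e2]
      rw [hl'] at hFkl
      zify at hFkl ⊢
      linear_combination hFkl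
    have e3 := Nat.eq_of_mul_eq_mul_left (by positivity) e1
    have e4 : 2 ∣ 2 ^ (2 * M - u) := dvd_pow_self 2 (by omega)
    rw [← e3] at e4
    rw [Nat.odd_iff] at hk
    omega
  rcases quarter_aux M u k l (by omega) hk hlodd hFkl with h | h
  · rcases hMe with h1 | h1
    · omega
    · obtain ⟨c, hc⟩ := h1
      omega
  · exact h3 (by omega)

/-- A unit of order divisible by `2 ^ t`, `2 t ≥ M`, makes `2 ^ (2 * M) + 1` prime. -/
theorem prime_of_order_gen (M t : ℕ) (h3 : ¬ 3 ∣ M) (hMe : M = 1 ∨ Even M)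
    (a : (ZMod (2 ^ (2 * M) + 1))ˣ) (ht : M ≤ 2 * t)
    (ha : 2 ^ t ∣ orderOf a) : Nat.Prime (2 ^ (2 * M) + 1) := by
  have hM : M ≠ 0 := by rintro rfl; exact h3 (dvd_zero 3)
  have hodd : Odd (2 ^ (2 * M) + 1) := by
    have : Even (2 ^ (2 * M)) := Nat.even_pow.2 ⟨even_two, by omega⟩
    exact this.add_one
  obtain ⟨p, hp, hpF, hp1⟩ := exists_prime_of_order _ hodd
    (by have := Nat.one_le_two_pow (n := 2 * M); omega) t a ha
  have := quarter_gen M t p h3 hMe hpF hp.one_lt ht hp1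
  rw [← this]
  exact hp

end Pool.Agent.helper69.FQ
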