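import Mathlib

/-! The lemma `factor_shape` is by helper61 (hand-in MP_a70bdc_nt.FactorShape). -/

namespace Pool.Agent.helper69.FQ

open Real

/-- The arithmetic step: there is an exponent `v` for which `k ^ v` exceeds half of the divisor
while `2 ^ (r * (v - 1))` is still small. -/
theorem exists_exponent (N k r : ℕ) (hk : Odd k) (hk1 : 1 < k)
    (h : k * 2 ^ r + 1 ∣ 2 ^ N + 1) :
    1 ≤ r ∧ ∃ v : ℕ, 1 ≤ v ∧ (k * 2 ^ r + 1) * 2 ^ (r * (v - 1)) ≤ 2 ^ (N + 1) ∧
      k * 2 ^ r + 1 < 2 * k ^ v := by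
  set D := k * 2 ^ r + 1 with hD
  have hk3 : 3 ≤ k := by
    rcases hk with ⟨t, ht⟩
    omega
  have hDle : D ≤ 2 ^ N + 1 := Nat.le_of_dvd (by positivity) h
  have hDgt : 3 * 2 ^ r < D := by
    have : 3 * 2 ^ r ≤ k * 2 ^ r := Nat.mul_le_mul_right _ hk3
    omega
  have hN : N ≠ 0 := by
    rintro rfl
    have : 1 ≤ 2 ^ r := Nat.one_le_two_pow
    norm_num at hDle
    omega
  have hE : Odd (2 ^ N + 1) := by
    have : Even (2 ^ N) := (Nat.even_pow.2 ⟨even_two, hN⟩)
    exact this.add_one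
  have hDodd : Odd D := Odd.of_dvd_nat hE h
  have hr : 1 ≤ r := by
    by_contra hr0
    have hr0 : r = 0 := by omega
    rw [hr0] at hD
    rw [hD] at hDodd
    have : Even (k * 2 ^ 0 + 1) := by
      simpa using hk.add_one
    exact (Nat.not_even_iff_odd.2 hDodd) this
  refine ⟨hr, ?_⟩
  have hex : ∃ v : ℕ, 2 ^ (N + 1) < D * 2 ^ (r * v) := by
    refine ⟨N + 1, ?_⟩
    have h1 : 2 ^ (N + 1) ≤ 2 ^ (r * (N + 1)) :=
      Nat.pow_le_pow_right (by norm_num) (by nlinarith)
    have h2 : 0 < 2 ^ (r * (N + 1)) := by positivity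
    have h3 : 1 < D := by
      have : 1 ≤ 2 ^ r := Nat.one_le_two_pow
      omega
    nlinarith
  classical
  set v := Nat.find hex with hv
  have hvspec : 2 ^ (N + 1) < D * 2 ^ (r * v) := Nat.find_spec hex
  have hv1 : 1 ≤ v := by
    by_contra h0
    have h0 : v = 0 := by omega
    rw [h0] at hvspec
    have : 1 ≤ 2 ^ N := Nat.one_le_two_pow
    rw [pow_succ] at hvspec
    simp at hvspec
    omega
  have hvmin : D * 2 ^ (r * (v - 1)) ≤ 2 ^ (N + 1) := by
    have := Nat.find_min hex (m := v - 1) (by omega)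
    omega
  refine ⟨v, hv1, hvmin, ?_⟩
  -- `r * v < N`
  have hrv : r * v < N := by
    have e1 : r * v = r * (v - 1) + r := by
      obtain ⟨w, hw⟩ : ∃ w, v = w + 1 := ⟨v - 1, by omega⟩
      rw [hw]
      simp
      ring
    have h1 : 3 * 2 ^ (r * v) < 2 ^ (N + 1) := by
      calc 3 * 2 ^ (r * v) = 3 * 2 ^ r * 2 ^ (r * (v - 1)) := by rw [e1, pow_add]; ring
        _ < D * 2 ^ (r * (v - 1)) := by
          exact Nat.mul_lt_mul_of_pos_right hDgt (by positivity)
        _ ≤ 2 ^ (N + 1) := hvmin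
    have h2 : 2 ^ (r * v) < 2 ^ N := by
      rw [pow_succ] at h1
      omega
    exact (Nat.pow_lt_pow_iff_right (by norm_num)).1 h2
  -- the divisibility
  have hdiv : (D : ℤ) ∣ (k : ℤ) ^ v + (-1) ^ v * 2 ^ (N - r * v) := by
    have hc : IsCoprime (D : ℤ) ((2 : ℤ) ^ (r * v)) := by
      apply IsCoprime.pow_right
      have : Nat.Coprime D 2 := hDodd.coprime_two_right
      exact_mod_cast Nat.isCoprime_iff_coprime.2 this
    apply hc.dvd_of_dvd_mul_left
    have e2 : (2 : ℤ) ^ (r * v) * ((k : ℤ) ^ v + (-1) ^ v * 2 ^ (N - r * v)) =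
        (((k : ℤ) * 2 ^ r) ^ v - (-1) ^ v) + (-1) ^ v * (2 ^ N + 1) := by
      have : (2 : ℤ) ^ N = 2 ^ (r * v) * 2 ^ (N - r * v) := by
        rw [← pow_add]
        congr 1
        omega
      rw [this, mul_pow, ← pow_mul]
      ring
    rw [e2]
    apply dvd_add
    · have h3 : ((k : ℤ) * 2 ^ r) - (-1) ∣ ((k : ℤ) * 2 ^ r) ^ v - (-1) ^ v :=
        sub_dvd_pow_sub_pow _ _ v
      have h4 : (D : ℤ) = ((k : ℤ) * 2 ^ r) - (-1) := by
        rw [hD]; push_cast; ring
      rw [h4]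
      exact h3
    · apply Dvd.dvd.mul_left
      exact_mod_cast h
  have hne : (k : ℤ) ^ v + (-1) ^ v * 2 ^ (N - r * v) ≠ 0 := by
    intro h0
    have hodd : Odd ((k : ℤ) ^ v) := by
      apply Odd.pow
      exact_mod_cast hk
    have heven : Even ((-1 : ℤ) ^ v * 2 ^ (N - r * v)) := by
      apply Even.mul_left
      apply Even.pow_of_ne_zero even_two
      omega
    have : Odd ((k : ℤ) ^ v + (-1) ^ v * 2 ^ (N - r * v)) := hodd.add_even heven
    rw [h0] at this
    exact absurd this (by decide)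
  have hle : (D : ℤ) ≤ |(k : ℤ) ^ v + (-1) ^ v * 2 ^ (N - r * v)| :=
    Int.le_of_dvd (abs_pos.2 hne) ((dvd_abs _ _).2 hdiv)
  have hle2 : (D : ℤ) ≤ (k : ℤ) ^ v + 2 ^ (N - r * v) := by
    refine hle.trans ((abs_add_le _ _).trans ?_)
    rw [abs_mul, abs_neg_one_pow, one_mul,
      abs_of_nonneg (by positivity : (0 : ℤ) ≤ (k : ℤ) ^ v),
      abs_of_nonneg (by positivity : (0 : ℤ) ≤ (2 : ℤ) ^ (N - r * v))]
  have hle3 : D ≤ k ^ v + 2 ^ (N - r * v) := by exact_mod_cast hle2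
  have hsmall : 2 * 2 ^ (N - r * v) < D := by
    have e3 : 2 ^ (N + 1) = 2 * 2 ^ (N - r * v) * 2 ^ (r * v) := by
      rw [mul_assoc, ← pow_add, ← pow_succ']
      congr 1
      omega
    rw [e3] at hvspec
    exact lt_of_mul_lt_mul_right hvspec (by positivity)
  omega

/-- Divisors `k * 2 ^ r + 1` of `2 ^ N + 1`. -/
theorem factor_shape (N k r : ℕ) (hk : Odd k) (hk1 : 1 < k)
    (h : k * 2 ^ r + 1 ∣ 2 ^ N + 1) :
    (r : ℝ) ^ 2 + r * logb 2 k + logb 2 k ^ 2 < N * logb 2 k + r + logb 2 k := by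
  obtain ⟨hr, v, hv1, h1, h2⟩ := exists_exponent N k r hk hk1 h
  have hkR : (1 : ℝ) < k := by exact_mod_cast hk1
  have hkpos : (0 : ℝ) < k := by linarith
  set κ := logb 2 (k : ℝ) with hκ
  have hκpos : 0 < κ := logb_pos (by norm_num) hkR
  set D : ℝ := (k : ℝ) * 2 ^ r + 1 with hD
  have hDpos : 0 < D := by positivity
  set L := logb 2 D with hL
  have hLgt : r + κ < L := by
    have e : (r : ℝ) + κ = logb 2 ((k : ℝ) * 2 ^ r) := by
      rw [logb_mul (by positivity) (by positivity), logb_pow, logb_self_eq_one (by norm_num)]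
      ring
    rw [e, hL]
    exact logb_lt_logb (by norm_num) (by positivity) (by rw [hD]; linarith)
  have h1R : D * 2 ^ (r * (v - 1)) ≤ 2 ^ (N + 1) := by
    rw [hD]
    exact_mod_cast h1
  have h2R : D < 2 * (k : ℝ) ^ v := by
    rw [hD]
    exact_mod_cast h2
  have h1L : L + (r : ℝ) * ((v : ℝ) - 1) ≤ N + 1 := by
    have := logb_le_logb_of_le (b := 2) (by norm_num) (by positivity) h1R
    rw [logb_mul (by positivity) (by positivity), logb_pow, logb_pow,
      logb_self_eq_one (by norm_num)] at this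
    have e : ((r * (v - 1) : ℕ) : ℝ) = (r : ℝ) * ((v : ℝ) - 1) := by
      rw [Nat.cast_mul, Nat.cast_sub hv1]
      simp
    rw [e] at this
    push_cast at this
    rw [← hL] at this
    linarith
  have h2L : L < 1 + v * κ := by
    have := logb_lt_logb (b := 2) (by norm_num) hDpos h2R
    rw [logb_mul (by positivity) (by positivity), logb_pow,
      logb_self_eq_one (by norm_num)] at this
    rw [← hL, ← hκ] at this
    exact this
  have hrR : (1 : ℝ) ≤ r := by exact_mod_cast hr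
  -- combine
  have a1 : (r : ℝ) * (L - 1) < r * (v * κ) := by
    apply mul_lt_mul_of_pos_left _ (by linarith)
    linarith
  have a2 : κ * ((r : ℝ) * ((v : ℝ) - 1)) ≤ κ * (N + 1 - L) := by
    apply mul_le_mul_of_nonneg_left _ hκpos.le
    linarith
  have a3 : (r : ℝ) * (r + κ) < r * L := mul_lt_mul_of_pos_left hLgt (by linarith)
  have a4 : κ * (r + κ) < κ * L := mul_lt_mul_of_pos_left hLgt hκpos
  nlinarith

end Pool.Agent.helper69.FQ
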