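import Mathlib

set_option maxHeartbeats 4000000

namespace Pool.Agent.helper69.FQ

/-- Vieta jumping. -/
theorem vieta (w s : ℤ) (hw : 1 ≤ w) (hs : 1 ≤ s) : ∀ n : ℕ, ∀ X Y : ℤ, 0 ≤ X → 0 ≤ Y →
    X + Y ≤ n → X ^ 2 - s * w * X * Y + Y ^ 2 = s → (Int.gcd X Y : ℤ) ^ 2 = s := by
  intro n
  induction n with
  | zero =>
    intro X Y hX hY hn h
    have h1 : X = 0 := by push_cast at hn; linarith
    have h2 : Y = 0 := by push_cast at hn; linarith
    subst h1; subst h2
    simp at h
    omega
  | succ n ih =>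
    -- first the case `Y ≤ X`
    have key : ∀ X Y : ℤ, 0 ≤ X → 0 ≤ Y → Y ≤ X → X + Y ≤ (n + 1 : ℕ) →
        X ^ 2 - s * w * X * Y + Y ^ 2 = s → (Int.gcd X Y : ℤ) ^ 2 = s := by
      intro X Y hX hY hYX hn h
      rcases eq_or_lt_of_le hY with hY0 | hY0
      · rw [← hY0] at h ⊢
        have : (Int.gcd X 0 : ℤ) = |X| := by
          rw [Int.gcd_zero_right]
          exact Int.natCast_natAbs X
        rw [this, sq_abs]
        linarith [h]
      · have hprod : X * (s * w * Y - X) = Y ^ 2 - s := by linarith [h]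
        have hsw : s ≤ s * w := by nlinarith
        have hX' : 0 ≤ s * w * Y - X := by
          by_contra hneg
          push Not at hneg
          have e1 : (s * w * Y - X) ^ 2 - s * w * (s * w * Y - X) * Y + Y ^ 2 = s := by
            linarith [h]
          have e2 : (s * w * Y - X) ≤ -1 := by linarith
          have e3 : s ≤ s * w * Y := by nlinarith
          have e4 : s * w * Y ≤ s * w * Y * (-(s * w * Y - X)) := by
            have : 0 ≤ s * w * Y := by linarith
            nlinarith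
          nlinarith [sq_nonneg (s * w * Y - X), mul_pos hY0 hY0]
        have hlt : s * w * Y - X < X := by
          by_contra hge
          push Not at hge
          have : X * X ≤ X * (s * w * Y - X) := by nlinarith
          nlinarith
        have hIH := ih (s * w * Y - X) Y hX' hY (by push_cast at hn; linarith) (by linarith [h])
        have hg : Int.gcd (s * w * Y - X) Y = Int.gcd X Y := by
          have : s * w * Y - X = -X + Y * (s * w) := by ring
          rw [this, Int.gcd_add_mul_left_left Y (-X) (s * w)]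
          simp
        rwa [hg] at hIH
    intro X Y hX hY hn h
    rcases le_total Y X with hle | hle
    · exact key X Y hX hY hle hn h
    · rw [Int.gcd_comm]
      exact key Y X hY hX hle (by linarith) (by linarith [h])

/-- The case `s = 1`. -/
theorem core (e f k l : ℕ) (hk : Odd k) (he : 1 ≤ e) (hkl : k ≤ l)
    (h1 : k + l = 2 ^ (e + f)) (h2 : k * l + 1 = 2 ^ (2 * e)) : f = 1 ∨ f = e := by
  obtain ⟨h, hh⟩ : ∃ h, h = 2 ^ (e - 1) := ⟨_, rfl⟩
  obtain ⟨w, hw⟩ : ∃ w, w = 2 ^ f := ⟨_, rfl⟩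
  have hy : 2 ^ e = 2 * h := by
    rw [hh, ← pow_succ']
    congr 1
    omega
  have hpos : 1 ≤ h := by rw [hh]; exact Nat.one_le_two_pow
  have h1' : k + l = w * (2 * h) := by rw [h1, pow_add, hy, hw]; ring
  have h2' : k * l + 1 = 4 * h ^ 2 := by rw [h2, two_mul, pow_add, hy]; ring
  rcases Nat.lt_or_ge f 2 with hf | hf
  · interval_cases f
    · exfalso
      have hw1 : w = 1 := by rw [hw]; norm_num
      rw [hw1] at h1'
      have e1 : 4 * (k * l) ≤ (k + l) ^ 2 := by
        zify
        nlinarith [sq_nonneg ((k : ℤ) - l)]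
      rw [h1'] at e1
      nlinarith
    · left; rfl
  · right
    have hw4 : 4 ≤ w := by
      rw [hw]
      calc 4 = 2 ^ 2 := by norm_num
        _ ≤ 2 ^ f := Nat.pow_le_pow_right (by norm_num) hf
    have hl : 4 * h ≤ l := by nlinarith
    have hkh : k < h := by
      by_contra hge
      push Not at hge
      have : h * (4 * h) ≤ k * l := Nat.mul_le_mul hge hl
      nlinarith
    have hsq : k ^ 2 + 4 * h ^ 2 = w * (2 * h) * k + 1 := by
      have : k * (k + l) = k * (w * (2 * h)) := by rw [h1']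
      nlinarith
    obtain ⟨c, hc⟩ := hk
    have hdvd : h ∣ 2 * (c * (c + 1)) := by
      have e1 : 2 * (2 * (c * (c + 1))) + 4 * h ^ 2 = w * (2 * h) * k := by
        rw [hc] at hsq
        rw [hc]
        nlinarith
      have e2 : 2 * (c * (c + 1)) + 2 * h ^ 2 = w * h * k := by nlinarith
      have e3 : h ∣ 2 * (c * (c + 1)) + 2 * h ^ 2 := by
        rw [e2]
        exact ⟨w * k, by ring⟩
      have e4 : h ∣ 2 * h ^ 2 := ⟨2 * h, by ring⟩
      exact (Nat.dvd_add_left e4).1 e3
    have hk1 : k = 1 ∨ k + 1 = h := by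
      rcases Nat.even_or_odd c with hce | hco
      · left
        have hcop : Nat.Coprime h (c + 1) := by
          rw [hh]
          apply Nat.Coprime.pow_left
          rw [Nat.coprime_two_left]
          exact hce.add_one
        have : h ∣ 2 * c := by
          have e5 : h ∣ (2 * c) * (c + 1) := by
            have : (2 * c) * (c + 1) = 2 * (c * (c + 1)) := by ring
            rw [this]; exact hdvd
          exact hcop.dvd_of_dvd_mul_right e5
        rcases Nat.eq_zero_or_pos c with h0 | h0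
        · omega
        · have := Nat.le_of_dvd (by omega) this
          omega
      · right
        have hcop : Nat.Coprime h c := by
          rw [hh]
          apply Nat.Coprime.pow_left
          rw [Nat.coprime_two_left]
          exact hco
        have : h ∣ 2 * (c + 1) := by
          have e5 : h ∣ (2 * (c + 1)) * c := by
            have : (2 * (c + 1)) * c = 2 * (c * (c + 1)) := by ring
            rw [this]; exact hdvd
          exact hcop.dvd_of_dvd_mul_right e5
        have := Nat.le_of_dvd (by omega) this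
        omega
    have hfe : w = 2 * h → f = e := by
      intro hwh
      rw [hw, ← hy] at hwh
      exact Nat.pow_right_injective (le_refl 2) hwh
    rcases hk1 with h0 | h0
    · apply hfe
      rw [h0] at hsq
      have : 4 * h ^ 2 = w * (2 * h) := by nlinarith
      have e6 : (2 * h) * (2 * h) = (2 * h) * w := by nlinarith
      exact (Nat.eq_of_mul_eq_mul_left (by omega) e6).symm
    · have e7 : 2 * w * (h - 1) = 5 * h - 2 := by
        obtain ⟨g, hg⟩ : ∃ g, h = g + 1 := ⟨h - 1, by omega⟩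
        have hkg : k = g := by omega
        rw [hg, hkg] at hsq
        rw [hg]
        have e8 : (g + 1) * (2 * w * g) = (g + 1) * (5 * g + 3) := by
          zify at hsq ⊢
          linear_combination -hsq
        have e9 := Nat.eq_of_mul_eq_mul_left (by omega) e8
        have : g + 1 - 1 = g := by omega
        rw [this, e9]
        omega
      obtain ⟨g, hg⟩ : ∃ g, h = g + 1 := ⟨h - 1, by omega⟩
      have hgg : h - 1 = g := by omega
      rw [hgg] at e7
      have hg1 : g ≤ 1 := by
        by_contra hgt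
        push Not at hgt
        have e10 : 2 * 4 * g ≤ 2 * w * g := Nat.mul_le_mul_right g (by omega)
        rw [e7, hg] at e10
        omega
      have hg2 : g = 1 := by
        have : 1 ≤ k := by omega
        omega
      apply hfe
      rw [hg2] at e7
      omega

/-- The quarter gap for a factorisation of `2 ^ (2 * M) + 1` in two factors congruent to `1`
modulo `2 ^ t`, one of them with exact valuation `t`. -/
theorem quarter_aux (M t k l : ℕ) (ht : M ≤ 2 * t) (hk : Odd k) (hl : Odd l)
    (hF : (1 + k * 2 ^ t) * (1 + l * 2 ^ t) = 2 ^ (2 * M) + 1) :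
    (2 * t = M + 1 ∧ t < M) ∨ 3 * t = 2 * M := by
  have hk1 : 1 ≤ k := hk.pos
  have hl1 : 1 ≤ l := hl.pos
  have htM : t < M := by
    by_contra hge
    push Not at hge
    have e1 : 2 ^ M ≤ 2 ^ t := Nat.pow_le_pow_right (by norm_num) hge
    have e2 : 1 + 2 ^ M ≤ 1 + k * 2 ^ t := by
      have := Nat.mul_le_mul hk1 e1
      omega
    have e3 : 1 + 2 ^ M ≤ 1 + l * 2 ^ t := by
      have := Nat.mul_le_mul hl1 e1
      omega
    have e4 := Nat.mul_le_mul e2 e3
    rw [hF, two_mul, pow_add] at e4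
    nlinarith [Nat.one_le_two_pow (n := M)]
  obtain ⟨e, he⟩ : ∃ e, M = e + t := ⟨M - t, by omega⟩
  obtain ⟨f, hf⟩ : ∃ f, t = e + f := ⟨t - e, by omega⟩
  have he1 : 1 ≤ e := by omega
  obtain ⟨z, hz⟩ : ∃ z : ℕ, z = 2 ^ t := ⟨_, rfl⟩
  obtain ⟨y, hy⟩ : ∃ y : ℕ, y = 2 ^ e := ⟨_, rfl⟩
  obtain ⟨w, hw⟩ : ∃ w : ℕ, w = 2 ^ f := ⟨_, rfl⟩
  have hzyw : z = y * w := by rw [hz, hy, hw, hf, pow_add]
  have hN : 2 ^ (2 * M) = y ^ 2 * z ^ 2 := by
    rw [hy, hz, ← pow_mul, ← pow_mul, ← pow_add]
    congr 1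
    omega
  have hz0 : 0 < z := by rw [hz]; positivity
  rw [hN, ← hz] at hF
  have h1 : k + l + k * l * z = y ^ 2 * z := by
    have : z * (k + l + k * l * z) = z * (y ^ 2 * z) := by
      zify at hF ⊢
      linear_combination hF
    exact Nat.eq_of_mul_eq_mul_left hz0 this
  -- `s = y ^ 2 - k l`
  obtain ⟨s, hs⟩ : ∃ s : ℤ, s = (y : ℤ) ^ 2 - k * l := ⟨_, rfl⟩
  have h2 : (k : ℤ) + l = z * s := by
    rw [hs]
    zify at h1
    linear_combination h1
  have hs1 : 1 ≤ s := by
    by_contra hneg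
    push Not at hneg
    have : (z : ℤ) * s ≤ 0 := by nlinarith
    omega
  have h3 : (k : ℤ) ^ 2 - s * w * k * y + (y : ℤ) ^ 2 = s := by
    have hzz : (z : ℤ) = y * w := by exact_mod_cast hzyw
    have : (l : ℤ) = z * s - k := by linarith
    rw [hzz] at this
    rw [this] at hs
    linear_combination -hs
  have hg := vieta (w : ℤ) s (by rw [hw]; exact_mod_cast Nat.one_le_two_pow) hs1 (k + y) k y
    (by positivity) (by positivity) (by push_cast; rfl) h3
  have hcop : Nat.Coprime k y := by
    rw [hy]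
    apply Nat.Coprime.pow_right
    rw [Nat.coprime_two_right]
    exact hk
  rw [Int.gcd_natCast_natCast, hcop] at hg
  have hs' : s = 1 := by simpa using hg.symm
  rw [hs'] at hs h2
  have h4 : k + l = 2 ^ (e + f) := by
    have : z = 2 ^ (e + f) := by rw [hz, hf]
    rw [← this]
    have : (k : ℤ) + l = z := by linarith
    exact_mod_cast this
  have h5 : k * l + 1 = 2 ^ (2 * e) := by
    have e5 : y ^ 2 = 2 ^ (2 * e) := by rw [hy, ← pow_mul]; ring_nf
    rw [← e5]
    have : (k : ℤ) * l + 1 = (y : ℤ) ^ 2 := by linarith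
    exact_mod_cast this
  have hfe : f = 1 ∨ f = e := by
    rcases le_total k l with hkl | hkl
    · exact core e f k l hk he1 hkl h4 h5
    · exact core e f l k hl he1 hkl (by rw [add_comm]; exact h4) (by rw [mul_comm]; exact h5)
  rcases hfe with h | h
  · left; omega
  · right; omega

/-- **Quarter gap.** A divisor `D > 1` of the Fermat number `F` with `D ≡ 1` modulo `2 ^ t`,
`2 ^ m ≤ 4 t`, is `F` itself. -/
theorem quarter (m t D : ℕ) (hD : D ∣ 2 ^ 2 ^ m + 1) (hD1 : 1 < D) (ht : 2 ^ m ≤ 4 * t)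
    (hmod : D ≡ 1 [MOD 2 ^ t]) : D = 2 ^ 2 ^ m + 1 := by
  by_contra hne
  obtain ⟨E, hE⟩ := hD
  have hDE : D * E = 2 ^ 2 ^ m + 1 := hE.symm
  have hE1 : E ≠ 1 := by
    rintro rfl
    rw [mul_one] at hDE
    exact hne hDE
  have hE0 : E ≠ 0 := by
    rintro rfl
    simp at hDE
  -- exact valuation
  have hD2 : D - 1 ≠ 0 := by omega
  obtain ⟨u, k, hk, hku⟩ := Nat.exists_eq_two_pow_mul_odd hD2
  have hDk : D = 1 + k * 2 ^ u := by
    rw [mul_comm k, ← hku]
    omega
  have hval : ∀ a : ℕ, 2 ^ a ∣ D - 1 → a ≤ u := by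
    intro a ha
    rw [hku] at ha
    by_contra hlt
    push Not at hlt
    have h2 : 2 ^ (u + 1) ∣ 2 ^ u * k := dvd_trans (pow_dvd_pow 2 hlt) ha
    rw [pow_succ] at h2
    have h3 := Nat.dvd_of_mul_dvd_mul_left (by positivity) h2
    rw [Nat.odd_iff] at hk
    omega
  have htu : t ≤ u := by
    apply hval
    exact (Nat.modEq_iff_dvd' (by omega)).1 hmod.symm
  obtain ⟨M, hM⟩ : ∃ M, M = 2 ^ (m - 1) := ⟨_, rfl⟩
  rcases Nat.eq_zero_or_pos m with h0 | hm
  · -- `F = 3`
    subst h0
    have h3 : D * E = 3 := by rw [hDE]; norm_num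
    have hp : Nat.Prime 3 := by norm_num
    rcases (Nat.dvd_prime hp).1 ⟨E, h3.symm⟩ with h | h
    · omega
    · apply hne
      rw [h]; norm_num
  have h2M : 2 ^ m = 2 * M := by
    rw [hM, ← pow_succ']
    congr 1
    omega
  -- `u < 2 ^ m`
  have hEge : 2 ≤ E := by omega
  have huN : u ≤ 2 ^ m := by
    by_contra hgt
    push Not at hgt
    have e1 : 2 ^ 2 ^ m ≤ 2 ^ u := Nat.pow_le_pow_right (by norm_num) hgt.le
    have e2 : 2 ^ u ≤ k * 2 ^ u := Nat.le_mul_of_pos_left _ hk.pos
    have e3 : D * 2 ≤ D * E := Nat.mul_le_mul_left D hEge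
    omega
  have hEmod : 2 ^ u ∣ E - 1 := by
    have e1 : D * E = E + 2 ^ u * (k * E) := by rw [hDk]; ring
    have e2 : 2 ^ u ∣ 2 ^ 2 ^ m := pow_dvd_pow 2 huN
    obtain ⟨c, hc⟩ := e2
    have e3 : E - 1 + 2 ^ u * (k * E) = 2 ^ u * c := by
      rw [← hc]
      omega
    have e4 : 2 ^ u ∣ E - 1 + 2 ^ u * (k * E) := ⟨c, e3⟩
    exact (Nat.dvd_add_left ⟨k * E, rfl⟩).1 e4
  obtain ⟨l, hl⟩ := hEmod
  have hEl : E = 1 + l * 2 ^ u := by
    rw [mul_comm l, ← hl]
    omega
  have hFkl : (1 + k * 2 ^ u) * (1 + l * 2 ^ u) = 2 ^ (2 * M) + 1 := by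
    rw [← hDk, ← hEl, hDE, h2M]
  -- `u < 2 ^ m` strictly and `l` odd
  have hlodd : Odd l := by
    by_contra hev
    rw [Nat.not_odd_iff_even] at hev
    obtain ⟨l', hl'⟩ := hev
    have hl1 : 1 ≤ l' := by
      by_contra h0
      have : l' = 0 := by omega
      rw [hl', this] at hEl
      simp at hEl
      omega
    have huN' : u + 1 ≤ 2 * M := by
      by_contra hgt
      have hu2 : u = 2 * M := by omega
      have e1 : 2 ^ u + 1 ≤ D := by
        rw [hDk]
        have := Nat.le_mul_of_pos_left (2 ^ u) hk.pos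
        omega
      have e3 : D * 2 ≤ D * E := Nat.mul_le_mul_left D hEge
      rw [hDE, h2M, ← hu2] at e3
      omega
    have e1 : 2 ^ u * (k + 2 * (l' + k * l' * 2 ^ u)) = 2 ^ u * 2 ^ (2 * M - u) := by
      have e2 : 2 ^ u * 2 ^ (2 * M - u) = 2 ^ (2 * M) := by
        rw [← pow_add]; congr 1; omega
      rw [e2]
      rw [hl'] at hFkl
      zify at hFkl ⊢
      linear_combination hFkl
    have e3 := Nat.eq_of_mul_eq_mul_left (by positivity) e1
    have e4 : 2 ∣ 2 ^ (2 * M - u) := dvd_pow_self 2 (by omega)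
    rw [← e3] at e4
    rw [Nat.odd_iff] at hk
    omega
  rcases quarter_aux M u k l (by omega) hk hlodd hFkl with h | h
  · -- `M` is odd, so `M = 1`
    have : m = 1 := by
      by_contra h1
      have : 2 ∣ M := by rw [hM]; exact dvd_pow_self 2 (by omega)
      omega
    subst this
    simp at hM
    omega
  · -- `3 ∣ 2 ^ m`
    have h3 : 3 ∣ 2 ^ m := by rw [h2M, ← h]; exact ⟨u, rfl⟩
    have h4 := Nat.Prime.dvd_of_dvd_pow (by norm_num) h3
    omega

end Pool.Agent.helper69.FQ
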